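import Pool.Agent.H9.FC.TA

/-! Modules BQ and CON: bounded quantifiers and derived connectives. -/

namespace Pool.Agent.H33.FC.BQ

open Pool.Agent.H9.FC Set BSet

theorem pf_BQ : T_BQ := by
  intro B _ F y hF
  constructor
  · refine le_antisymm (iSup_le fun x => ?_) (iSup_le fun i => ?_)
    · unfold bmem
      rw [iSup_inf_eq]
      refine iSup_mono fun i => ?_
      rw [inf_assoc]
      exact inf_le_inf_left _ (hF x (y.func i))
    · exact le_iSup_of_le (y.func i) (inf_le_inf_right _ (bval_le_bmem y i))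
  · refine le_antisymm (le_iInf fun i => ?_) (le_iInf fun x => ?_)
    · refine (iInf_le _ (y.func i)).trans ?_
      exact himp_le_himp_right (bval_le_bmem y i)
    · rw [le_himp_iff]
      unfold bmem
      rw [inf_iSup_eq]
      refine iSup_le fun i => ?_
      calc (⨅ i, y.bval i ⇨ F (y.func i)) ⊓ (y.bval i ⊓ beq x (y.func i))
          ≤ (y.bval i ⇨ F (y.func i)) ⊓ (y.bval i ⊓ beq x (y.func i)) :=
            inf_le_inf_right _ (iInf_le _ i)
        _ = beq (y.func i) x ⊓ ((y.bval i ⇨ F (y.func i)) ⊓ y.bval i) := by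
            rw [beq_symm x, ← inf_assoc, inf_comm]
        _ ≤ beq (y.func i) x ⊓ F (y.func i) := inf_le_inf_left _ (by
            rw [← le_himp_iff])
        _ ≤ F x := hF _ _

theorem pf_CON : T_CON := by
  constructor
  · intro B _ φ ψ i v
    refine ⟨?_, ?_, ?_, ?_, ?_⟩
    · simp [Fml.neg, fv]
    · simp [Fml.and, Fml.neg, fv, himp_eq, compl_sup, inf_comm]
    · simp [Fml.or, Fml.neg, fv, himp_eq, sup_comm]
    · simp [Fml.iff, Fml.and, Fml.neg, fv, himp_eq, compl_sup, inf_comm, sup_comm]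
    · simp [Fml.ex, Fml.neg, fv, compl_iInf]
  · intro N E φ ψ i v
    refine ⟨?_, ?_, ?_, ?_, ?_⟩
    · simp [Fml.neg, Sat]
    · simp [Fml.and, Fml.neg, Sat]
    · simp [Fml.or, Fml.neg, Sat]
      tauto
    · simp [Fml.iff, Fml.and, Fml.neg, Sat]
      tauto
    · simp [Fml.ex, Fml.neg, Sat]

end Pool.Agent.H33.FC.BQ
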