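import Pool.Agent.H9.FC.TB

/-! Module PAR: numerical parameters exist. -/

namespace Pool.Agent.H33.FC.PAR

open Pool.Agent.H9.FC

/-- sums of the alphabet sizes and of their partial sums -/
def st : ℕ → ℕ × ℕ
  | 0 => (0, 0)
  | i + 1 =>
    let s := (st i).1 + 2 ^ (2 + i * (1 + i + i * (st i).2))
    (s, (st i).2 + s)

/-- block lengths -/
def el (i : ℕ) : ℕ := 2 + i * (1 + i + i * (st i).2)

/-- alphabet sizes -/
def al (i : ℕ) : ℕ := 2 ^ el i

theorem st_one (i : ℕ) : (st i).1 = ∑ k ∈ Finset.range i, al k := by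
  induction i with
  | zero => rfl
  | succ i ih =>
    rw [Finset.sum_range_succ, ← ih]
    rfl

theorem st_two (i : ℕ) : (st i).2 = ∑ k ∈ Finset.range i, ∑ j ∈ Finset.range (k + 1), al j := by
  induction i with
  | zero => rfl
  | succ i ih =>
    rw [Finset.sum_range_succ, ← ih, ← st_one]
    rfl

/-- the widths -/
def om (i : ℕ) : ℕ := 1 + i + i * (st i).2

/-- sums of alphabet sizes -/
def sm (k : ℕ) : ℕ := ∑ j ∈ Finset.range (k + 1), al j

theorem pf_PAR : T_PAR := by
  refine ⟨{ ell := el, a := al, w := fun l i => 2 ^ (l * om i), e := fun m k => 2 ^ (1 + m * sm k),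
            b := fun k => 2 ^ (1 + k * sm k + k), a_eq := fun i => rfl, ell_pos := ?_, w_zero := ?_,
            w_succ := ?_, w_le := ?_, e_two := ?_, e_succ := ?_, e_w := ?_, e_b := ?_,
            b_ge := ?_ }⟩
  · intro i
    unfold el
    omega
  · intro i
    simp
  · intro l i
    rw [← pow_succ']
    refine Nat.pow_le_pow_right (by norm_num) ?_
    have h : 1 ≤ om i := by unfold om; omega
    nlinarith
  · intro l i h
    rw [← pow_succ']
    unfold al
    refine Nat.pow_le_pow_right (by norm_num) ?_
    have h1 : el i = 2 + i * om i := rfl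
    rw [h1]
    have h2 : l * om i ≤ i * om i := Nat.mul_le_mul_right _ (by omega)
    omega
  · intro k
    simp
  · intro m k
    rw [Finset.prod_pow_eq_pow_sum, ← pow_add]
    refine Nat.pow_le_pow_right (by norm_num) ?_
    change 1 + m * sm k + sm k ≤ 1 + (m + 1) * sm k
    rw [Nat.succ_mul]
    omega
  · intro m n i l hmn hni
    rw [Finset.prod_pow_eq_pow_sum, ← pow_add]
    refine Nat.pow_le_pow_right (by norm_num) ?_
    have h1 : ∑ k ∈ Finset.Ico n i, (1 + m * sm k) ≤ ∑ k ∈ Finset.range i, (1 + i * sm k) := by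
      refine (Finset.sum_le_sum fun k _ => ?_).trans
        (Finset.sum_le_sum_of_subset (f := fun k => 1 + i * sm k) ?_)
      · have : m * sm k ≤ i * sm k := Nat.mul_le_mul_right _ (hmn.trans hni)
        omega
      · intro k hk
        rw [Finset.mem_Ico] at hk
        exact Finset.mem_range.2 hk.2
    have h2 : ∑ k ∈ Finset.range i, (1 + i * sm k) = i + i * (st i).2 := by
      rw [Finset.sum_add_distrib, ← Finset.mul_sum, st_two]
      simp [sm]
    have h3 : (l + 1) * om i = l * om i + om i := Nat.succ_mul _ _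
    have h4 : om i = 1 + i + i * (st i).2 := rfl
    omega
  · intro m k h
    refine Nat.pow_le_pow_right (by norm_num) ?_
    have : m * sm k ≤ k * sm k := Nat.mul_le_mul_right _ h
    omega
  · intro k
    exact Nat.pow_le_pow_right (by norm_num) (by omega)

end Pool.Agent.H33.FC.PAR
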