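import Pool.Agent.H9.FC.TC

/-! Module TRE: the closed sets given by a slalom have measure zero. -/

namespace Pool.Agent.H33.FC.TRE

open Pool.Agent.H9.FC

theorem strs_tA (p : Par) (A : ℕ → Finset ℕ) (m : ℕ) :
    strs (tA p A) m = {σ | okS p A m σ} := by
  ext σ
  unfold strs tA
  simp

theorem cod_cons (c : ℕ) (r : List ℕ) : cod (c :: r) = c % 2 + 2 * cod r := rfl

theorem cod_inj (l l' : List ℕ) (hl : l.length = l'.length) (h : ∀ c ∈ l, c < 2)
    (h' : ∀ c ∈ l', c < 2) (he : cod l = cod l') : l = l' := by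
  induction l generalizing l' with
  | nil =>
    cases l' with
    | nil => rfl
    | cons c r => simp at hl
  | cons c r ih =>
    cases l' with
    | nil => simp at hl
    | cons c' r' =>
      rw [cod_cons, cod_cons] at he
      have h1 : c < 2 := h c (by simp)
      have h2 : c' < 2 := h' c' (by simp)
      have h3 : c = c' := by omega
      have h4 : cod r = cod r' := by omega
      rw [h3, ih r' (by simpa using hl) (fun x hx => h x (by simp [hx]))
        (fun x hx => h' x (by simp [hx])) h4]

theorem bl_succ (p : Par) (i : ℕ) : bl p (i + 1) = bl p i + p.ell i := by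
  unfold bl
  rw [Finset.sum_range_succ]

/-- splitting off the last block -/
theorem okS_append (p : Par) (A : ℕ → Finset ℕ) (m i : ℕ) (hi : m ≤ i) (L₁ L₂ : List ℕ)
    (h₁ : L₁.length = bl p i) (h₂ : L₂.length = p.ell i) (h : okS p A m (L₁ ++ L₂)) :
    okS p A m L₁ ∧ cod L₂ ∈ A i := by
  constructor
  · intro j hj hj'
    have h3 := h j hj (by rw [List.length_append]; omega)
    have h4 : ((L₁ ++ L₂).drop (bl p j)).take (p.ell j) = (L₁.drop (bl p j)).take (p.ell j) := by
      rw [bl_succ] at hj'
      rw [List.drop_append_of_le_length (by omega), List.take_append_of_le_length]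
      rw [List.length_drop]
      omega
    rwa [h4] at h3
  · have h3 := h i hi (by rw [List.length_append, bl_succ, h₁, h₂])
    have h4 : ((L₁ ++ L₂).drop (bl p i)).take (p.ell i) = L₂ := by
      rw [← h₁, List.drop_left, ← h₂, List.take_length]
    rwa [h4] at h3

/-- the list of a sequence -/
def ls {n : ℕ} (s : Fin n → Fin 2) : List ℕ := List.ofFn fun i => (s i : ℕ)

theorem card_block (l : ℕ) (A : Finset ℕ) :
    Nat.card {t : Fin l → Fin 2 // cod (ls t) ∈ A} ≤ A.card := by
  have h := Nat.card_le_card_of_injective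
    (fun t : {t : Fin l → Fin 2 // cod (ls t) ∈ A} => (⟨cod (ls t.1), t.2⟩ : {x // x ∈ A})) (by
      intro t t' he
      have h1 : cod (ls t.1) = cod (ls t'.1) := congrArg Subtype.val he
      have h2 : ∀ t : Fin l → Fin 2, ∀ c ∈ ls t, c < 2 := by
        intro t c hc
        unfold ls at hc
        rw [List.mem_ofFn] at hc
        obtain ⟨i, hi⟩ := hc
        rw [← hi]
        exact (t i).2
      have h3 : ls t.1 = ls t'.1 := cod_inj _ _ (by simp [ls]) (h2 _) (h2 _) h1
      unfold ls at h3
      have h4 := List.ofFn_injective h3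
      refine Subtype.ext (funext fun i => Fin.ext ?_)
      exact congrFun h4 i)
  rwa [Nat.card_eq_fintype_card (α := {x // x ∈ A}), Fintype.card_coe] at h

theorem main (p : Par) (A : ℕ → Finset ℕ)
    (hA : ∀ i, A i ⊆ Finset.range (p.a i) ∧ 2 * (A i).card ≤ p.a i) (m K : ℕ) :
    ∀ n, n = bl p (m + K) → 2 ^ K * Nat.card {s : Fin n → Fin 2 // okS p A m (ls s)} ≤ 2 ^ n := by
  induction K with
  | zero =>
    intro n _
    rw [pow_zero, one_mul]
    calc Nat.card {s : Fin n → Fin 2 // okS p A m (ls s)} ≤ Nat.card (Fin n → Fin 2) :=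
          Nat.card_le_card_of_injective _ Subtype.val_injective
      _ = 2 ^ n := by rw [Nat.card_eq_fintype_card]; simp
  | succ K ih =>
    intro n hn
    have h1 : n = bl p (m + K) + p.ell (m + K) := by
      rw [hn, ← bl_succ]
      rfl
    subst h1
    set k := bl p (m + K) with hk
    set l := p.ell (m + K) with hl
    have hsplit : ∀ s : Fin (k + l) → Fin 2, ls s = ls (fun i => s (Fin.castAdd l i)) ++
        ls (fun j => s (Fin.natAdd k j)) := by
      intro s
      unfold ls
      rw [List.ofFn_add]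
      rfl
    have hprop : ∀ s : Fin (k + l) → Fin 2, okS p A m (ls s) →
        okS p A m (ls fun i => s (Fin.castAdd l i)) ∧
          cod (ls fun j => s (Fin.natAdd k j)) ∈ A (m + K) := by
      intro s hs
      rw [hsplit] at hs
      exact okS_append p A m (m + K) (by omega) _ _ (by simp [ls, hk]) (by simp [ls, hl]) hs
    have h2 : Nat.card {s : Fin (k + l) → Fin 2 // okS p A m (ls s)} ≤
        Nat.card ({s : Fin k → Fin 2 // okS p A m (ls s)} ×
          {t : Fin l → Fin 2 // cod (ls t) ∈ A (m + K)}) := by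
      refine Nat.card_le_card_of_injective (fun s => (⟨fun i => s.1 (Fin.castAdd l i),
        (hprop s.1 s.2).1⟩, ⟨fun j => s.1 (Fin.natAdd k j), (hprop s.1 s.2).2⟩)) ?_
      intro s s' he
      rw [Prod.mk.injEq, Subtype.mk.injEq, Subtype.mk.injEq] at he
      refine Subtype.ext (funext fun i => ?_)
      induction i using Fin.addCases with
      | left i => exact congrFun he.1 i
      | right j => exact congrFun he.2 j
    rw [Nat.card_prod] at h2
    have h3 := card_block l (A (m + K))
    have h4 := (hA (m + K)).2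
    have h5 := ih k rfl
    have h6 : p.a (m + K) = 2 ^ l := p.a_eq _
    calc 2 ^ (K + 1) * Nat.card {s : Fin (k + l) → Fin 2 // okS p A m (ls s)}
        ≤ 2 ^ (K + 1) * (Nat.card {s : Fin k → Fin 2 // okS p A m (ls s)} *
          Nat.card {t : Fin l → Fin 2 // cod (ls t) ∈ A (m + K)}) := Nat.mul_le_mul_left _ h2
      _ ≤ 2 ^ (K + 1) * (Nat.card {s : Fin k → Fin 2 // okS p A m (ls s)} * (A (m + K)).card) :=
          Nat.mul_le_mul_left _ (Nat.mul_le_mul_left _ h3)
      _ = (2 ^ K * Nat.card {s : Fin k → Fin 2 // okS p A m (ls s)}) *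
          (2 * (A (m + K)).card) := by ring
      _ ≤ 2 ^ k * 2 ^ l := Nat.mul_le_mul h5 (by rw [← h6]; exact h4)
      _ = 2 ^ (k + l) := (pow_add _ _ _).symm

theorem pf_TRE : T_TRE := by
  intro p A hA m k
  refine ⟨bl p (m + k), ?_⟩
  have h := main p A hA m k _ rfl
  rw [strs_tA]
  refine le_trans (Nat.mul_le_mul_right _ (Nat.lt_two_pow_self (n := k)).le) ?_
  exact h

end Pool.Agent.H33.FC.TRE
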